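import Pool.Agent.helper12.OB.SpecB

/-! # ob:BR3 (MP_baa4d7_al): the torus as a covering of degree 3 of the sphere with three branch points -/

set_option autoImplicit false

namespace Pool.Agent.OB

open Pool.Agent.helper58.DC Pool.Agent.DI Pool.Agent.GR

section

variable {G : Type} [Group G] {n : ℕ}

/-- The data of a homomorphism of the group upstairs. -/
abbrev BR3_X (G : Type) (n : ℕ) : Type :=
  (G × G) × ((Fin n → G) × (Fin n → G) × (Fin n → G)) × G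

/-- Conjugation of a tuple. -/
def BR3_cj (g : G) (z : Fin n → G) : Fin n → G := fun j => g * z j * g⁻¹

theorem BR3_cj_one (z : Fin n → G) : BR3_cj 1 z = z := by
  funext j; simp [BR3_cj]

theorem BR3_cj_mul (g h : G) (z : Fin n → G) : BR3_cj (g * h) z = BR3_cj g (BR3_cj h z) := by
  funext j; simp only [BR3_cj]; group

theorem BR3_qq (g : G) (z : Fin n → G) : qq (BR3_cj g z) = g * qq z * g⁻¹ := by
  unfold qq
  have h1 : List.ofFn (BR3_cj g z) = (List.ofFn z).map (MulAut.conj g) := by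
    rw [List.map_ofFn]
    rfl
  rw [h1, ← map_list_prod]
  rfl

theorem BR3_tp (g x : G) : tp 3 (g * x * g⁻¹) = tp 3 x := by
  unfold tp
  have h1 : (g * x * g⁻¹) ^ 3 = 1 ↔ x ^ 3 = 1 := by
    rw [conj_pow]
    constructor
    · intro h
      have h2 : x ^ 3 = g⁻¹ * (g * x ^ 3 * g⁻¹) * g := by group
      rw [h2, h]
      group
    · intro h
      rw [h]
      group
  by_cases h : x ^ 3 = 1
  · rw [if_pos h, if_pos (h1.2 h)]
  · rw [if_neg h, if_neg fun h' => h (h1.1 h')]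

/-- The action. -/
def BR3_a (g : G) (x : BR3_X G n) : BR3_X G n :=
  ((g * x.1.1 * g⁻¹, g * x.1.2 * g⁻¹),
    (BR3_cj g x.2.1.1, BR3_cj g x.2.1.2.1, BR3_cj g x.2.1.2.2), g * x.2.2 * g⁻¹)

theorem BR3_a_one (x : BR3_X G n) : BR3_a 1 x = x := by
  obtain ⟨⟨v, w⟩, ⟨z0, z1, z2⟩, S⟩ := x
  simp [BR3_a, BR3_cj_one]

theorem BR3_a_mul (g h : G) (x : BR3_X G n) : BR3_a (g * h) x = BR3_a g (BR3_a h x) := by
  obtain ⟨⟨v, w⟩, ⟨z0, z1, z2⟩, S⟩ := x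
  simp only [BR3_a, BR3_cj_mul, Prod.mk.injEq, true_and]
  refine ⟨⟨?_, ?_⟩, ?_⟩ <;> group

/-- The action as a homomorphism. -/
def BR3_act : G →* Equiv.Perm (BR3_X G n) where
  toFun g :=
    { toFun := BR3_a g
      invFun := BR3_a g⁻¹
      left_inv := fun x => by rw [← BR3_a_mul, inv_mul_cancel, BR3_a_one]
      right_inv := fun x => by rw [← BR3_a_mul, mul_inv_cancel, BR3_a_one] }
  map_one' := Equiv.ext fun x => BR3_a_one x
  map_mul' g h := Equiv.ext fun x => BR3_a_mul g h x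

theorem BR3_act_apply (g : G) (x : BR3_X G n) : BR3_act g x = BR3_a g x := rfl

/-- The set of the entries. -/
def BR3_E (x : BR3_X G n) : Set G :=
  {x.1.1, x.1.2, x.2.2} ∪ (Set.range x.2.1.1 ∪ Set.range x.2.1.2.1 ∪ Set.range x.2.1.2.2)

/-- The generated subgroup. -/
def BR3_gen (x : BR3_X G n) : Subgroup G := Subgroup.closure (BR3_E x)

theorem BR3_range (g : G) (z : Fin n → G) :
    Set.range (BR3_cj g z) = (MulAut.conj g) '' Set.range z := by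
  rw [← Set.range_comp]
  rfl

theorem BR3_E_a (g : G) (x : BR3_X G n) : BR3_E (BR3_a g x) = (MulAut.conj g) '' BR3_E x := by
  obtain ⟨⟨v, w⟩, ⟨z0, z1, z2⟩, S⟩ := x
  simp only [BR3_E, BR3_a, BR3_range, Set.image_union, Set.image_insert_eq, Set.image_singleton]
  rfl

theorem BR3_gen_act (g : G) (x : BR3_X G n) : BR3_gen (BR3_act g x) = cj g (BR3_gen x) := by
  unfold BR3_gen cj
  rw [BR3_act_apply, BR3_E_a, MonoidHom.map_closure]
  rfl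

theorem BR3_comm (g x : G) : g * x * g⁻¹ = x ↔ x * g = g * x := by
  rw [mul_inv_eq_iff_eq_mul]
  exact eq_comm

theorem BR3_cj_eq (g : G) (z : Fin n → G) :
    BR3_cj g z = z ↔ ∀ x ∈ Set.range z, x * g = g * x := by
  constructor
  · rintro h _ ⟨j, rfl⟩
    exact (BR3_comm g (z j)).1 (congrFun h j)
  · intro h
    funext j
    exact (BR3_comm g (z j)).2 (h _ ⟨j, rfl⟩)

theorem BR3_fix (g : G) (x : BR3_X G n) : BR3_act g x = x ↔ g ∈ cz (BR3_gen x) := by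
  unfold cz BR3_gen
  rw [Subgroup.centralizer_closure, Subgroup.mem_centralizer_iff, BR3_act_apply]
  obtain ⟨⟨v, w⟩, ⟨z0, z1, z2⟩, S⟩ := x
  simp only [BR3_a, BR3_E, Prod.mk.injEq]
  rw [BR3_comm, BR3_comm, BR3_comm, BR3_cj_eq, BR3_cj_eq, BR3_cj_eq]
  constructor
  · rintro ⟨⟨h1, h2⟩, ⟨h3, h4, h5⟩, h6⟩ y hy
    rcases hy with (rfl | rfl | rfl) | ((hy | hy) | hy)
    · exact h1
    · exact h2
    · exact h6
    · exact h3 y hy
    · exact h4 y hy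
    · exact h5 y hy
  · intro h
    exact ⟨⟨h v (Or.inl (Or.inl rfl)), h w (Or.inl (Or.inr (Or.inl rfl)))⟩,
      ⟨fun y hy => h y (Or.inr (Or.inl (Or.inl hy))), fun y hy => h y (Or.inr (Or.inl (Or.inr hy))),
        fun y hy => h y (Or.inr (Or.inr hy))⟩, h S (Or.inl (Or.inr (Or.inr rfl)))⟩

/-- The covering transformation. -/
def BR3_s (x : BR3_X G n) : BR3_X G n :=
  ((x.1.2, x.1.2⁻¹ * x.1.1⁻¹ * x.2.2), (x.2.1.2.1, x.2.1.2.2, x.2.1.1),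
    x.1.1⁻¹ * x.2.2 * x.1.1)

theorem BR3_s_act (g : G) (x : BR3_X G n) : BR3_s (BR3_act g x) = BR3_act g (BR3_s x) := by
  obtain ⟨⟨v, w⟩, ⟨z0, z1, z2⟩, S⟩ := x
  simp only [BR3_act_apply, BR3_a, BR3_s, Prod.mk.injEq, true_and]
  constructor <;> group

theorem BR3_s3 (x : BR3_X G n) : BR3_s (BR3_s (BR3_s x)) = x := by
  obtain ⟨⟨v, w⟩, ⟨z0, z1, z2⟩, S⟩ := x
  simp only [BR3_s, Prod.mk.injEq, true_and]
  refine ⟨⟨?_, ?_⟩, ?_⟩ <;> group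

theorem BR3_gen_le (x : BR3_X G n) : BR3_gen (BR3_s x) ≤ BR3_gen x := by
  obtain ⟨⟨v, w⟩, ⟨z0, z1, z2⟩, S⟩ := x
  have hv : v ∈ BR3_gen ((v, w), (z0, z1, z2), S) := Subgroup.subset_closure (Or.inl (Or.inl rfl))
  have hw : w ∈ BR3_gen ((v, w), (z0, z1, z2), S) :=
    Subgroup.subset_closure (Or.inl (Or.inr (Or.inl rfl)))
  have hS : S ∈ BR3_gen ((v, w), (z0, z1, z2), S) :=
    Subgroup.subset_closure (Or.inl (Or.inr (Or.inr rfl)))
  refine (Subgroup.closure_le _).2 ?_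
  rintro y ((rfl | rfl | rfl) | ((hy | hy) | hy))
  · exact hw
  · exact mul_mem (mul_mem (inv_mem hw) (inv_mem hv)) hS
  · exact mul_mem (mul_mem (inv_mem hv) hS) hv
  · exact Subgroup.subset_closure (Or.inr (Or.inl (Or.inr hy)))
  · exact Subgroup.subset_closure (Or.inr (Or.inr hy))
  · exact Subgroup.subset_closure (Or.inr (Or.inl (Or.inl hy)))

theorem BR3_gen_s (x : BR3_X G n) : BR3_gen (BR3_s x) = BR3_gen x := by
  refine le_antisymm (BR3_gen_le x) ?_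
  calc BR3_gen x = BR3_gen (BR3_s (BR3_s (BR3_s x))) := by rw [BR3_s3]
    _ ≤ BR3_gen (BR3_s (BR3_s x)) := BR3_gen_le _
    _ ≤ BR3_gen (BR3_s x) := BR3_gen_le _

/-- The covering. -/
def BR3_cfg : Cfg 3 G (BR3_X G n) where
  act := BR3_act
  gen := BR3_gen
  gen_act := BR3_gen_act
  fix := BR3_fix
  σ := BR3_s
  κ := fun _ => 1
  σ_act := BR3_s_act
  gen_σ := BR3_gen_s
  κ_mem := fun x => one_mem _
  σ_pow := fun x => by
    rw [map_one]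
    exact BR3_s3 x
  κ_σ := fun _ => rfl
  κ_act := fun g _ => by group

/-- The weight. -/
noncomputable def BR3_th (g₁ g₂ : G → ℂ) (x : BR3_X G n) : ℂ :=
  g₁ x.2.2 *
    g₂ (wd3 x.1.1 x.1.2 (qq x.2.1.1) (qq x.2.1.2.1) (qq x.2.1.2.2) x.2.2)⁻¹ *
    ((∏ j, tp 3 (x.2.1.1 j)) * (∏ j, tp 3 (x.2.1.2.1 j)) * ∏ j, tp 3 (x.2.1.2.2 j))

theorem BR3_tp_int {M : Ideal (integralClosure ℤ ℂ)} (hM : Setup 3 M) (x : G) :
    IntAt M (tp 3 x) := by
  unfold tp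
  split_ifs
  · exact IntAt.one hM
  · exact IntAt.zero hM

theorem BR3_th_int {M : Ideal (integralClosure ℤ ℂ)} (hM : Setup 3 M) {g₁ g₂ : G → ℂ}
    (h1 : ClF M g₁) (h2 : ClF M g₂) (x : BR3_X G n) : IntAt M (BR3_th g₁ g₂ x) := by
  have hp : ∀ z : Fin n → G, IntAt M (∏ j, tp 3 (z j)) := fun z =>
    IntAt.prod hM _ fun j _ => BR3_tp_int hM (z j)
  exact ((h1.int _).mul hM (h2.int _)).mul hM (((hp _).mul hM (hp _)).mul hM (hp _))

theorem BR3_tps (g : G) (z : Fin n → G) : ∏ j, tp 3 (BR3_cj g z j) = ∏ j, tp 3 (z j) :=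
  Finset.prod_congr rfl fun j _ => BR3_tp g (z j)

theorem BR3_th_act {M : Ideal (integralClosure ℤ ℂ)} {g₁ g₂ : G → ℂ}
    (h1 : ClF M g₁) (h2 : ClF M g₂) (g : G) (x : BR3_X G n) :
    BR3_th g₁ g₂ (BR3_act g x) = BR3_th g₁ g₂ x := by
  obtain ⟨⟨v, w⟩, ⟨z0, z1, z2⟩, S⟩ := x
  simp only [BR3_act_apply, BR3_a, BR3_th, BR3_tps, BR3_qq, h1.cls]
  congr 2
  rw [← h2.cls (wd3 v w (qq z0) (qq z1) (qq z2) S)⁻¹ g]
  congr 1
  unfold wd3
  group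

theorem BR3_th_s {M : Ideal (integralClosure ℤ ℂ)} {g₁ g₂ : G → ℂ}
    (h1 : ClF M g₁) (h2 : ClF M g₂) (x : BR3_X G n) :
    BR3_th g₁ g₂ (BR3_s x) = BR3_th g₁ g₂ x := by
  obtain ⟨⟨v, w⟩, ⟨z0, z1, z2⟩, S⟩ := x
  have e1 : g₁ (v⁻¹ * S * v) = g₁ S := by
    have := h1.cls S v⁻¹
    rwa [inv_inv] at this
  have e2 : g₂ (wd3 w (w⁻¹ * v⁻¹ * S) (qq z1) (qq z2) (qq z0) (v⁻¹ * S * v))⁻¹ =
      g₂ (wd3 v w (qq z0) (qq z1) (qq z2) S)⁻¹ := by
    rw [← h2.cls (wd3 v w (qq z0) (qq z1) (qq z2) S)⁻¹ (qq z2 * w⁻¹ * v⁻¹ * S)]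
    congr 1
    unfold wd3
    group
  simp only [BR3_s, BR3_th]
  rw [e1, e2]
  ring

/-- The point over `(h, z, s)`. -/
def BR3_up (h : G) (z : Fin n → G) (s : G) : BR3_X G n :=
  ((s * h⁻¹, h * s * h⁻¹ * h⁻¹), (z, BR3_cj h z, BR3_cj h (BR3_cj h z)), s ^ 3)

theorem BR3_up_fix {h : G} (hh : h ^ 3 = 1) (z : Fin n → G) (s : G) :
    BR3_act h (BR3_up h z s) = BR3_s (BR3_up h z s) := by
  have h3 : (h ^ 3)⁻¹ = 1 := by rw [hh, inv_one]
  simp only [BR3_act_apply, BR3_a, BR3_s, BR3_up, Prod.mk.injEq, true_and]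
  refine ⟨⟨?_, ?_⟩, ?_, ?_⟩
  · group
  · calc h * (h * s * h⁻¹ * h⁻¹) * h⁻¹ = h * h * s * (h ^ 3)⁻¹ := by
          simp only [pow_succ, pow_zero, one_mul, mul_inv_rev, mul_assoc]
      _ = h * h * s := by rw [h3, mul_one]
      _ = _ := by
          simp only [pow_succ, pow_zero, one_mul, mul_inv_rev, inv_inv, mul_assoc,
            inv_mul_cancel_left]
  · funext j
    calc h * (h * (h * z j * h⁻¹) * h⁻¹) * h⁻¹ = h ^ 3 * z j * (h ^ 3)⁻¹ := by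
          simp only [pow_succ, pow_zero, one_mul, mul_inv_rev, mul_assoc]
      _ = z j := by rw [h3, hh, one_mul, mul_one]
  · group

theorem BR3_word {h : G} (hh : h ^ 3 = 1) (q s : G) :
    wd3 (s * h⁻¹) (h * s * h⁻¹ * h⁻¹) q (h * q * h⁻¹) (h * (h * q * h⁻¹) * h⁻¹) (s ^ 3) =
      (h * q * s) ^ 3 := by
  have h2 : h⁻¹ * h⁻¹ = h := by
    calc h⁻¹ * h⁻¹ = (h ^ 3)⁻¹ * h := by group
      _ = h := by rw [hh, inv_one, one_mul]
  unfold wd3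
  calc h * q * h⁻¹ * (h * s * h⁻¹ * h⁻¹) * q * (s * h⁻¹) * (h * (h * q * h⁻¹) * h⁻¹) *
        (h * s * h⁻¹ * h⁻¹)⁻¹ * (s * h⁻¹)⁻¹ * s ^ 3
      = h * q * s * (h⁻¹ * h⁻¹) * q * s * h * q * s := by group
    _ = (h * q * s) ^ 3 := by
        rw [h2]
        simp only [pow_succ, pow_zero, one_mul, mul_assoc]

theorem BR3_idem (z : Fin n → G) : (∏ j, tp 3 (z j)) * (∏ j, tp 3 (z j)) = ∏ j, tp 3 (z j) := by
  rw [← Finset.prod_mul_distrib]
  refine Finset.prod_congr rfl fun j _ => ?_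
  unfold tp
  split_ifs <;> simp

theorem BR3_th_up (g₁ g₂ : G → ℂ) {h : G} (hh : h ^ 3 = 1) (z : Fin n → G) (s : G) :
    BR3_th g₁ g₂ (BR3_up h z s) = pw 3 g₁ s * pw 3 g₂ (h * qq z * s)⁻¹ * ∏ j, tp 3 (z j) := by
  simp only [BR3_th, BR3_up, BR3_tps, BR3_qq]
  rw [BR3_word hh, BR3_idem, BR3_idem]
  unfold pw
  rw [inv_pow]

theorem BR3_gen_up (y : (Fin (n + 1) → G) × G) :
    BR3_gen (BR3_up (y.1 0) (Fin.tail y.1) y.2) ⊔ Subgroup.zpowers (y.1 0) =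
      Subgroup.closure (Set.range y.1 ∪ {y.2}) := by
  obtain ⟨z, s⟩ := y
  have hz : ∀ j, z j ∈ Subgroup.closure (Set.range z ∪ {s}) := fun j =>
    Subgroup.subset_closure (Or.inl ⟨j, rfl⟩)
  have hs : s ∈ Subgroup.closure (Set.range z ∪ {s}) := Subgroup.subset_closure (Or.inr rfl)
  have hh := hz 0
  apply le_antisymm
  · refine sup_le ((Subgroup.closure_le _).2 ?_) (Subgroup.zpowers_le.2 hh)
    rintro x ((rfl | rfl | rfl) | ((⟨j, rfl⟩ | ⟨j, rfl⟩) | ⟨j, rfl⟩))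
    · exact mul_mem hs (inv_mem hh)
    · exact mul_mem (mul_mem (mul_mem hh hs) (inv_mem hh)) (inv_mem hh)
    · exact pow_mem hs 3
    · exact hz _
    · exact mul_mem (mul_mem hh (hz _)) (inv_mem hh)
    · exact mul_mem (mul_mem hh (mul_mem (mul_mem hh (hz _)) (inv_mem hh))) (inv_mem hh)
  · rw [Subgroup.closure_le]
    have h0 : z 0 ∈ BR3_gen (BR3_up (z 0) (Fin.tail z) s) ⊔ Subgroup.zpowers (z 0) :=
      (le_sup_right : _ ≤ BR3_gen (BR3_up (z 0) (Fin.tail z) s) ⊔ Subgroup.zpowers (z 0))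
        (Subgroup.mem_zpowers (z 0))
    have hg : BR3_gen (BR3_up (z 0) (Fin.tail z) s) ≤
        BR3_gen (BR3_up (z 0) (Fin.tail z) s) ⊔ Subgroup.zpowers (z 0) := le_sup_left
    rintro x (⟨j, rfl⟩ | rfl)
    · refine Fin.cases ?_ (fun i => ?_) j
      · exact h0
      · exact hg (Subgroup.subset_closure (Or.inr (Or.inl (Or.inl ⟨i, rfl⟩))))
    · have h1 : x * (z 0)⁻¹ ∈ BR3_gen (BR3_up (z 0) (Fin.tail z) x) ⊔ Subgroup.zpowers (z 0) :=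
        hg (Subgroup.subset_closure (Or.inl (Or.inl rfl)))
      have h2 := mul_mem h1 h0
      rwa [inv_mul_cancel_right] at h2

theorem BR3_qq_succ (z : Fin (n + 1) → G) : qq z = z 0 * qq (Fin.tail z) := by
  unfold qq
  rw [List.ofFn_succ, List.prod_cons]
  rfl

theorem BR3_down (g₁ g₂ : G → ℂ) :
    ∑ᶠ z ∈ {z : BR3_X G n × G | BR3_cfg.act z.2 z.1 = BR3_cfg.σ z.1 ∧
        z.2 ^ 3 = (BR3_cfg (n := n)).κ z.1},
      BR3_th g₁ g₂ z.1 * (W 3 (BR3_cfg.gen z.1 ⊔ Subgroup.zpowers z.2) : ℂ) =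
    Sp 3 (pw 3 g₁) (pw 3 g₂) (n + 1) := by
  classical
  symm
  have hb : Set.BijOn (fun y : (Fin (n + 1) → G) × G =>
      (BR3_up (y.1 0) (Fin.tail y.1) y.2, y.1 0)) {y | (y.1 0) ^ 3 = 1}
      {z : BR3_X G n × G | BR3_cfg.act z.2 z.1 = BR3_cfg.σ z.1 ∧
        z.2 ^ 3 = (BR3_cfg (n := n)).κ z.1} := by
    refine ⟨?_, ?_, ?_⟩
    · intro y hy
      exact ⟨BR3_up_fix hy _ _, hy⟩
    · rintro ⟨z, s⟩ - ⟨z', s'⟩ - h
      simp only [Prod.mk.injEq, BR3_up] at h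
      obtain ⟨⟨⟨h1, -⟩, ⟨h2, -⟩, -⟩, h3⟩ := h
      have h4 : z = z' := by
        funext j
        refine Fin.cases h3 (fun i => ?_) j
        exact congrFun h2 i
      subst h4
      have h5 : s = s' := mul_right_cancel h1
      rw [h5]
    · rintro ⟨⟨⟨v, w⟩, ⟨z0, z1, z2⟩, S⟩, h⟩ ⟨h1, h2⟩
      have hh : h ^ 3 = 1 := h2
      have h3 : BR3_a h ((v, w), (z0, z1, z2), S) = BR3_s ((v, w), (z0, z1, z2), S) := h1
      simp only [BR3_a, BR3_s, Prod.mk.injEq] at h3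
      obtain ⟨⟨e1, e2⟩, ⟨e3, e4, -⟩, -⟩ := h3
      refine ⟨(Fin.cons h z0, v * h), by simpa using hh, ?_⟩
      have e5 : S = (v * h) ^ 3 := by
        have : S = v * w * (h * w * h⁻¹) := by rw [e2]; group
        rw [this, ← e1]
        calc v * (h * v * h⁻¹) * (h * (h * v * h⁻¹) * h⁻¹) = (v * h) ^ 3 * (h ^ 3)⁻¹ := by
              simp only [pow_succ, pow_zero, one_mul, mul_inv_rev, mul_assoc, inv_mul_cancel_left,
                mul_inv_cancel_left]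
          _ = (v * h) ^ 3 := by rw [hh, inv_one, mul_one]
      simp only [Fin.cons_zero, Fin.tail_cons, BR3_up, Prod.mk.injEq, and_true, true_and]
      refine ⟨⟨by group, ?_⟩, ⟨e3, ?_⟩, e5.symm⟩
      · rw [← e1]; group
      · rw [e3, e4]
  rw [← finsum_mem_eq_of_bijOn _ hb (f := fun y : (Fin (n + 1) → G) × G =>
    pw 3 g₁ y.2 * pw 3 g₂ (qq y.1 * y.2)⁻¹ * (∏ j, tp 3 (y.1 j)) *
      (W 3 (Subgroup.closure (Set.range y.1 ∪ {y.2})) : ℂ))]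
  · unfold Sp
    refine finsum_congr fun y => ?_
    by_cases hy : (y.1 0) ^ 3 = 1
    · rw [finsum_eq_if, if_pos (show y ∈ {y : (Fin (n + 1) → G) × G | (y.1 0) ^ 3 = 1} from hy)]
    · rw [finsum_eq_if, if_neg (show ¬ y ∈ {y : (Fin (n + 1) → G) × G | (y.1 0) ^ 3 = 1} from hy)]
      have h0 : tp 3 (y.1 0) = 0 := if_neg hy
      rw [Fin.prod_univ_succ, h0]
      ring
  · intro y hy
    have hy' : (y.1 0) ^ 3 = 1 := hy
    have h0 : tp 3 (y.1 0) = 1 := if_pos hy'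
    have h1 := BR3_th_up g₁ g₂ hy' (Fin.tail y.1) y.2
    have h2 := BR3_gen_up y
    change _ = BR3_th g₁ g₂ (BR3_up (y.1 0) (Fin.tail y.1) y.2) *
      (W 3 (BR3_gen (BR3_up (y.1 0) (Fin.tail y.1) y.2) ⊔ Subgroup.zpowers (y.1 0)) : ℂ)
    rw [h1, h2, BR3_qq_succ, Fin.prod_univ_succ, h0, one_mul]
    rfl

end

theorem BR3 (hLDB : LDB_stmt) (hTW3 : TW3_stmt) : BR3_stmt := by
  intro M hM G _ _ n g₁ g₂ h1 h2
  obtain ⟨w, hw, hE⟩ := hLDB 3 M hM G (BR3_X G n) BR3_cfg (BR3_th g₁ g₂)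
    (BR3_th_int hM h1 h2) (BR3_th_act h1 h2) (BR3_th_s h1 h2)
  rw [BR3_down g₁ g₂] at hE
  have hup : ∑ᶠ x : BR3_X G n, BR3_th g₁ g₂ x * (W 3 ((BR3_cfg (n := n)).gen x) : ℂ) =
      To 3 g₁ g₂ (3 * n) := hTW3 G n g₁ g₂
  rw [hup] at hE
  refine ⟨-((((3 : ℕ) : integralClosure ℤ ℂ) : ℂ) * w),
    (InM.mul_right hM (InM.coe hM hM.mem) hw).neg, ?_⟩
  have h3 : Sp 3 (pw 3 g₁) (pw 3 g₂) (n + 1) - To 3 g₁ g₂ (3 * n) =
      -(((3 * pp 3 G : ℕ) : ℂ) * w) := by rw [← hE]; ring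
  have h4 : ((((3 : ℕ) : integralClosure ℤ ℂ) : integralClosure ℤ ℂ) : ℂ) = ((3 : ℕ) : ℂ) := rfl
  rw [h3, h4]
  push_cast
  ring

end Pool.Agent.OB
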